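import Pool.Agent.H32.RK.TargetsA

/-!
PNB over a number field: the pairs which are bad at a prime ideal are rare
-/

set_option autoImplicit false

open Finset NumberField Pool.Agent.H32.RQ Pool.Agent.H32.RK

namespace Pool.Agent.H38.RK

theorem pnb_dq {R : Type} [CommRing R] {s : ℕ} (f : Mon s → R) (a : R) (x : Fin s → R)
    (j : Fin s) : dq f (fun i => a * x i) j = a * dq f x j := by
  unfold dq
  rw [Finset.mul_sum]
  refine Finset.sum_congr rfl fun p _ => ?_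
  split_ifs <;> ring

theorem pnb_qf {R : Type} [CommRing R] {s : ℕ} (f : Mon s → R) (a : R) (x : Fin s → R) :
    qf f (fun i => a * x i) = a ^ 2 * qf f x := by
  unfold qf
  rw [Finset.mul_sum]
  refine Finset.sum_congr rfl fun p _ => ?_
  ring

theorem pnb_jm {R : Type} [CommRing R] {s : ℕ} (F : Fin 2 → Mon s → R) (a : R) (x : Fin s → R)
    (j l : Fin s) : jm F (fun i => a * x i) j l = a ^ 2 * jm F x j l := by
  unfold jm
  rw [pnb_dq, pnb_dq, pnb_dq, pnb_dq]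
  ring

section

variable {K : Type} [Field K] [NumberField K]

theorem qf_mk (𝔪 : Ideal (𝓞 K)) {s : ℕ} (c : Fin 2 → Mon s → 𝓞 K) (x : Fin s → 𝓞 K)
    (i : Fin 2) : qf (cq 𝔪 c i) (fun j => Ideal.Quotient.mk 𝔪 (x j)) =
      Ideal.Quotient.mk 𝔪 (qf (c i) x) := by
  unfold qf cq
  rw [map_sum]
  refine Finset.sum_congr rfl fun p _ => ?_
  rw [map_mul, map_mul]

theorem dq_mk (𝔪 : Ideal (𝓞 K)) {s : ℕ} (c : Fin 2 → Mon s → 𝓞 K) (x : Fin s → 𝓞 K)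
    (i : Fin 2) (j : Fin s) : dq (cq 𝔪 c i) (fun j => Ideal.Quotient.mk 𝔪 (x j)) j =
      Ideal.Quotient.mk 𝔪 (dq (c i) x j) := by
  unfold dq cq
  rw [map_sum]
  refine Finset.sum_congr rfl fun p _ => ?_
  rw [map_mul, map_add]
  split_ifs <;> simp

theorem jm_mk (𝔪 : Ideal (𝓞 K)) {s : ℕ} (c : Fin 2 → Mon s → 𝓞 K) (x : Fin s → 𝓞 K)
    (j l : Fin s) : jm (cq 𝔪 c) (fun j => Ideal.Quotient.mk 𝔪 (x j)) j l =
      Ideal.Quotient.mk 𝔪 (jm c x j l) := by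
  unfold jm
  rw [dq_mk, dq_mk, dq_mk, dq_mk, map_sub, map_mul, map_mul]

end

theorem pnb_md (s : ℕ) : s ≤ md s := by
  have h : Fintype.card (Fin s) ≤ Fintype.card (Mon s) :=
    Fintype.card_le_of_injective (fun i => (⟨(i, i), le_rfl⟩ : Mon s)) fun i j h => by
      have h2 := congrArg (fun q : Mon s => q.1.1) h
      exact h2
  rwa [Fintype.card_fin] at h

/-- the pairs with a zero with a coordinate `1` at which all the minors vanish -/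
def EE (R : Type) [CommRing R] (s : ℕ) : Set (Fin 2 → Mon s → R) :=
  {F | ∃ (i₀ : Fin s) (x : Fin s → R), x i₀ = 1 ∧ (∀ i, qf (F i) x = 0) ∧ ∀ j l, jm F x j l = 0}

theorem card_EE (R : Type) [CommRing R] [Finite R] (s B : ℕ)
    (hB : ∀ (i₀ : Fin s) (x : Fin s → R), x i₀ = 1 →
      Nat.card {F : Fin 2 → Mon s → R // (∀ i, qf (F i) x = 0) ∧ ∀ j l, jm F x j l = 0} ≤ B) :
    Nat.card (EE R s) ≤ s * (Nat.card R ^ (s - 1) * B) := by
  classical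
  have : Fintype R := Fintype.ofFinite R
  obtain ⟨E, hE⟩ : ∃ E : Finset (Fin 2 → Mon s → R), E = Finset.univ.filter
      (fun F => ∃ (i₀ : Fin s) (x : Fin s → R), x i₀ = 1 ∧
        (∀ i, qf (F i) x = 0) ∧ ∀ j l, jm F x j l = 0) := ⟨_, rfl⟩
  have hEE : EE R s = (E : Set (Fin 2 → Mon s → R)) := by
    ext F
    rw [Finset.mem_coe, hE, Finset.mem_filter]
    exact ⟨fun h => ⟨Finset.mem_univ _, h⟩, fun h => h.2⟩
  rw [hEE, Nat.card_coe_set_eq, Set.ncard_coe_finset]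
  obtain ⟨X, hX⟩ : ∃ X : Fin s → Finset (Fin s → R), X = fun i₀ =>
      Fintype.piFinset (fun j => if j = i₀ then {1} else Finset.univ) := ⟨_, rfl⟩
  have hXc : ∀ i₀, (X i₀).card = Nat.card R ^ (s - 1) := by
    intro i₀
    rw [hX]
    dsimp only
    rw [Fintype.card_piFinset]
    have e : ∀ j : Fin s, (if j = i₀ then ({1} : Finset R) else
        Finset.univ).card = if j = i₀ then 1 else Nat.card R := by
      intro j
      split_ifs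
      · rw [Finset.card_singleton]
      · rw [Finset.card_univ, Nat.card_eq_fintype_card]
    rw [Finset.prod_congr rfl fun j _ => e j, Finset.prod_ite, Finset.prod_const_one, one_mul,
      Finset.prod_const, Finset.filter_ne', Finset.card_erase_of_mem (Finset.mem_univ _),
      Finset.card_univ, Fintype.card_fin]
  have hsub : E ⊆ Finset.univ.biUnion fun i₀ : Fin s => (X i₀).biUnion fun x =>
      if x i₀ = 1 then Finset.univ.filter fun F : Fin 2 → Mon s → R =>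
        (∀ i, qf (F i) x = 0) ∧ ∀ j l, jm F x j l = 0 else ∅ := by
    intro F hF
    rw [hE, Finset.mem_filter] at hF
    obtain ⟨-, i₀, x, h3, h4⟩ := hF
    rw [Finset.mem_biUnion]
    refine ⟨i₀, Finset.mem_univ _, ?_⟩
    rw [Finset.mem_biUnion]
    refine ⟨x, ?_, ?_⟩
    · rw [hX]
      dsimp only
      rw [Fintype.mem_piFinset]
      intro j
      split_ifs with h5
      · rw [h5, h3, Finset.mem_singleton]
      · exact Finset.mem_univ _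
    · rw [if_pos h3, Finset.mem_filter]
      exact ⟨Finset.mem_univ _, h4⟩
  refine (Finset.card_le_card hsub).trans (Finset.card_biUnion_le.trans ?_)
  refine (Finset.sum_le_card_nsmul _ _ (Nat.card R ^ (s - 1) * B)
    fun i₀ _ => ?_).trans (le_of_eq ?_)
  · refine Finset.card_biUnion_le.trans ?_
    refine (Finset.sum_le_card_nsmul _ _ B fun x _ => ?_).trans (le_of_eq ?_)
    · split_ifs with h3
      · refine le_trans (le_of_eq ?_) (hB i₀ x h3)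
        rw [Nat.card_eq_fintype_card, Fintype.card_subtype]
      · rw [Finset.card_empty]
        exact Nat.zero_le _
    · rw [smul_eq_mul, hXc]
  · rw [smul_eq_mul, Finset.card_univ, Fintype.card_fin]

open Classical in
theorem pf_PNB (K : Type) [Field K] [NumberField K] (hPFX : T_PFX) (hPUV : T_PUV)
    (hCHN : T_CHN K) (hTRB : T_TRB K) : T_PNB K := by
  intro ι _ _ ω s hs
  obtain ⟨C₁, hC₁, hT⟩ := hTRB ι ω
  have hs1 : (1 : ℝ) ≤ 2 * (s : ℝ) := by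
    have : (2 : ℝ) ≤ (s : ℝ) := by exact_mod_cast hs
    linarith
  have hC2 : (1 : ℝ) ≤ C₁ ^ (2 * md s) := one_le_pow₀ hC₁
  refine ⟨C₁ ^ (2 * md s) * (2 * (s : ℝ)), ?_, ?_⟩
  · nlinarith
  intro t A 𝔭 hp hp0 ht hA
  obtain ⟨hloc, hprin, hsum⟩ := hCHN 𝔭 t hp hp0 ht
  have hm0 : 𝔭 ^ t ≠ ⊥ := pow_ne_zero t hp0
  have hfin : Finite (𝓞 K ⧸ 𝔭 ^ t) := Ideal.finiteQuotientOfFreeOfNeBot _ hm0
  have hcard : Nat.card (𝓞 K ⧸ 𝔭 ^ t) = Ideal.absNorm 𝔭 ^ t := by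
    rw [← map_pow]
    rfl
  have hNpos : 0 < Ideal.absNorm 𝔭 ^ t := by
    rw [← hcard]
    exact Nat.card_pos
  obtain ⟨M, hM⟩ : ∃ M : ℕ, M = Ideal.absNorm 𝔭 ^ t := ⟨_, rfl⟩
  rw [← hM] at hcard hNpos hA hsum
  have hfinI : Finite (Ideal (𝓞 K ⧸ 𝔭 ^ t)) :=
    Finite.of_injective (fun I : Ideal (𝓞 K ⧸ 𝔭 ^ t) => (I : Set (𝓞 K ⧸ 𝔭 ^ t)))
      SetLike.coe_injective
  have : Fintype (Ideal (𝓞 K ⧸ 𝔭 ^ t)) := Fintype.ofFinite _
  have h1 := hPUV (𝓞 K ⧸ 𝔭 ^ t) (s - 1) Finset.univ (by omega) fun I => Finset.mem_univ I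
  rw [hcard] at h1
  have h2 : Nat.card {q : (Fin (s - 1) → 𝓞 K ⧸ 𝔭 ^ t) × (Fin (s - 1) → 𝓞 K ⧸ 𝔭 ^ t) //
      ∀ j l, q.1 j * q.2 l = q.1 l * q.2 j} ≤ M ^ (s - 1) * (2 * M) :=
    h1.trans (Nat.mul_le_mul_left _ (hsum _))
  have h3 : Nat.card (EE (𝓞 K ⧸ 𝔭 ^ t) s) ≤
      s * (M ^ (s - 1) * (M ^ (s - 1) * (2 * M) * M ^ (2 * (md s - s)))) := by
    have h4 := card_EE (𝓞 K ⧸ 𝔭 ^ t) s (M ^ (s - 1) * (2 * M) * M ^ (2 * (md s - s))) (by
      intro i₀ x hx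
      have h5 := hPFX (𝓞 K ⧸ 𝔭 ^ t) s (M ^ (s - 1) * (2 * M)) i₀ x hs hx h2
      rw [hcard] at h5
      exact h5)
    rw [hcard] at h4
    exact h4
  have h4 : Nat.card (EE (𝓞 K ⧸ 𝔭 ^ t) s) * M ≤ 2 * s * M ^ (2 * md s) := by
    have hmd := pnb_md s
    have e : M ^ (2 * md s) = M ^ (s - 1) * (M ^ (s - 1) * M * M ^ (2 * (md s - s))) * M := by
      rw [← pow_succ, ← pow_add, ← pow_add, ← pow_succ]
      congr 1
      omega
    calc Nat.card (EE (𝓞 K ⧸ 𝔭 ^ t) s) * M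
        ≤ s * (M ^ (s - 1) * (M ^ (s - 1) * (2 * M) * M ^ (2 * (md s - s)))) * M :=
          Nat.mul_le_mul_right _ h3
      _ = 2 * s * M ^ (2 * md s) := by
          rw [e]
          ring
  have hmN : Ideal.absNorm (𝔭 ^ t) = M := by
    rw [map_pow]
    exact hM.symm
  have h5 := hT s A (𝔭 ^ t) (EE (𝓞 K ⧸ 𝔭 ^ t) s) hm0 (by omega) (by rw [hmN]; exact hA)
  rw [hmN] at h5
  have h6 : ((bx ι s A).filter fun c => NP t 𝔭 (ec ω c)).card ≤
      ((bx ι s A).filter fun c => cq (𝔭 ^ t) (ec ω c) ∈ EE (𝓞 K ⧸ 𝔭 ^ t) s).card := by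
    refine Finset.card_le_card ?_
    intro c hc
    rw [Finset.mem_filter] at hc ⊢
    refine ⟨hc.1, ?_⟩
    obtain ⟨x, ⟨i₀, hi⟩, hq, hj⟩ := hc.2
    have hu : ∃ a : 𝓞 K ⧸ 𝔭 ^ t, a * Ideal.Quotient.mk (𝔭 ^ t) (x i₀) = 1 := by
      have hmax : 𝔭.IsMaximal := hp.isMaximal hp0
      have h7 : Ideal.span {x i₀} ⊔ 𝔭 = ⊤ := by
        rw [sup_comm]
        refine hmax.1.2 _ (lt_of_le_of_ne le_sup_left fun h => hi ?_)
        rw [h]
        exact Ideal.mem_sup_right (Ideal.mem_span_singleton_self _)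
      have h8 : Ideal.span {x i₀} ⊔ 𝔭 ^ t = ⊤ := Ideal.sup_pow_eq_top h7
      have h9 : (1 : 𝓞 K) ∈ Ideal.span {x i₀} ⊔ 𝔭 ^ t := by
        rw [h8]
        trivial
      obtain ⟨y, hy, z, hz, hyz⟩ := Submodule.mem_sup.1 h9
      obtain ⟨a, rfl⟩ := Ideal.mem_span_singleton.1 hy
      refine ⟨Ideal.Quotient.mk _ a, ?_⟩
      rw [← map_mul, ← map_one (Ideal.Quotient.mk (𝔭 ^ t)), ← hyz, map_add,
        Ideal.Quotient.eq_zero_iff_mem.2 hz, add_zero, mul_comm]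
    obtain ⟨a, ha⟩ := hu
    refine ⟨i₀, fun i => a * Ideal.Quotient.mk (𝔭 ^ t) (x i), ha, ?_, ?_⟩
    · intro i
      rw [pnb_qf, qf_mk, Ideal.Quotient.eq_zero_iff_mem.2 (hq i), mul_zero]
    · intro j l
      rw [pnb_jm, jm_mk, Ideal.Quotient.eq_zero_iff_mem.2 (hj j l), mul_zero]
  have hMr : ((Ideal.absNorm 𝔭 : ℝ)) ^ t = (M : ℝ) := by
    rw [hM]
    push_cast
    rfl
  rw [hMr]
  have hpos : (0 : ℝ) < (M : ℝ) ^ (2 * md s) := pow_pos (by exact_mod_cast hNpos) _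
  have h6' : (((bx ι s A).filter fun c => NP t 𝔭 (ec ω c)).card : ℝ) ≤
      (((bx ι s A).filter fun c => cq (𝔭 ^ t) (ec ω c) ∈ EE (𝓞 K ⧸ 𝔭 ^ t) s).card : ℝ) := by
    exact_mod_cast h6
  have h4' : (Nat.card (EE (𝓞 K ⧸ 𝔭 ^ t) s) : ℝ) * (M : ℝ) ≤
      2 * (s : ℝ) * (M : ℝ) ^ (2 * md s) := by
    exact_mod_cast h4
  have hM0 : (0 : ℝ) ≤ (M : ℝ) := Nat.cast_nonneg _
  have hB0 : (0 : ℝ) ≤ C₁ ^ (2 * md s) * (2 * (A : ℝ) + 1) ^ (2 * md s * Fintype.card ι) := by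
    positivity
  refine le_of_mul_le_mul_right ?_ hpos
  calc (((bx ι s A).filter fun c => NP t 𝔭 (ec ω c)).card : ℝ) * (M : ℝ) *
        (M : ℝ) ^ (2 * md s)
      ≤ (((bx ι s A).filter fun c => cq (𝔭 ^ t) (ec ω c) ∈ EE (𝓞 K ⧸ 𝔭 ^ t) s).card : ℝ) *
        (M : ℝ) * (M : ℝ) ^ (2 * md s) :=
        mul_le_mul_of_nonneg_right (mul_le_mul_of_nonneg_right h6' hM0) hpos.le
    _ = (((bx ι s A).filter fun c => cq (𝔭 ^ t) (ec ω c) ∈ EE (𝓞 K ⧸ 𝔭 ^ t) s).card : ℝ) *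
        (M : ℝ) ^ (2 * md s) * (M : ℝ) := by ring
    _ ≤ C₁ ^ (2 * md s) * (2 * (A : ℝ) + 1) ^ (2 * md s * Fintype.card ι) *
        Nat.card (EE (𝓞 K ⧸ 𝔭 ^ t) s) * (M : ℝ) := mul_le_mul_of_nonneg_right h5 hM0
    _ = C₁ ^ (2 * md s) * (2 * (A : ℝ) + 1) ^ (2 * md s * Fintype.card ι) *
        (Nat.card (EE (𝓞 K ⧸ 𝔭 ^ t) s) * (M : ℝ)) := by ring
    _ ≤ C₁ ^ (2 * md s) * (2 * (A : ℝ) + 1) ^ (2 * md s * Fintype.card ι) *
        (2 * (s : ℝ) * (M : ℝ) ^ (2 * md s)) := mul_le_mul_of_nonneg_left h4' hB0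
    _ = C₁ ^ (2 * md s) * (2 * (s : ℝ)) * (2 * (A : ℝ) + 1) ^ (2 * md s * Fintype.card ι) *
        (M : ℝ) ^ (2 * md s) := by ring

end Pool.Agent.H38.RK
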