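import Pool.Agent.H32.RK.TargetsA
import Pool.Agent.H32.RK.TargetsE
import Pool.Agent.H11.RK.TRB

/-!
# Pairs of quadratic forms over a number field: row PS3: the pairs close to the special pair which
are bad modulo an ideal
-/

set_option autoImplicit false

open Finset NumberField Pool.Agent.H32.RQ Pool.Agent.H32.RK

namespace Pool.Agent.H38.RK

open Classical in
/-- one coefficient -/
theorem ps3_one (K : Type) [Field K] [NumberField K] (hLAT : T_LAT K) (hNRM : T_NRM K)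
    (hCMP : T_CMP K) (ι : Type) [Fintype ι] [DecidableEq ι] (ω : Module.Basis ι ℤ (𝓞 K)) :
    ∃ C : ℝ, 1 ≤ C ∧ ∀ (A : ℕ) (𝔳 𝔪 : Ideal (𝓞 K)) (r : ℝ) (z : ι → ℝ) (e : 𝓞 K)
    (f : 𝓞 K ⧸ 𝔪), 𝔳 ≠ ⊥ → 𝔪 ≠ ⊥ → 𝔳 ⊔ 𝔪 = ⊤ → 0 < r * A →
    (Ideal.absNorm 𝔳 : ℝ) * Ideal.absNorm 𝔪 ≤ (r * A) ^ Fintype.card ι →
    (((bo ι A).filter fun v => (el ω v - e ∈ 𝔳 ∧ ∀ l, |(v l : ℝ) - z l| ≤ r * A) ∧
      Ideal.Quotient.mk 𝔪 (el ω v) = f).card : ℝ) * (Ideal.absNorm 𝔪 : ℝ) ≤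
      C * ((r * A) ^ Fintype.card ι / Ideal.absNorm 𝔳) := by
  obtain ⟨hd, C₁, hC₁, -, hC₁b⟩ := hCMP ι ω
  obtain ⟨C₂, hC₂, hL⟩ := hLAT
  obtain ⟨hN1, -, -, hN2, -⟩ := hNRM
  refine ⟨C₂ * (1 + (2 * C₁) ^ Fintype.card ι), ?_, ?_⟩
  · have h1 : (0 : ℝ) ≤ (2 * C₁) ^ Fintype.card ι := by positivity
    nlinarith
  intro A 𝔳 𝔪 r z e f hv hm hvm hrA hNA
  have hNr : (0 : ℝ) < Ideal.absNorm 𝔪 := by
    have h1 : 0 < Ideal.absNorm 𝔪 := Nat.pos_of_ne_zero (by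
      rw [Ne, Ideal.absNorm_eq_zero_iff]
      exact hm)
    exact_mod_cast h1
  have hVr : (0 : ℝ) < Ideal.absNorm 𝔳 := by
    have h1 : 0 < Ideal.absNorm 𝔳 := Nat.pos_of_ne_zero (by
      rw [Ne, Ideal.absNorm_eq_zero_iff]
      exact hv)
    exact_mod_cast h1
  set S := (bo ι A).filter fun v => (el ω v - e ∈ 𝔳 ∧ ∀ l, |(v l : ℝ) - z l| ≤ r * A) ∧
      Ideal.Quotient.mk 𝔪 (el ω v) = f with hS
  set g : (ι → ℤ) → K := fun v => ((el ω v : 𝓞 K) : K) with hg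
  have hginj : Function.Injective g := fun v v' h =>
    Pool.Agent.H11.RK.el_inj ω (RingOfIntegers.ext h)
  have hcard : (S.image g).card = S.card := Finset.card_image_of_injective _ hginj
  have hD : (0 : ℝ) < C₁ * (2 * (r * A)) := by positivity
  have hprod : (Ideal.absNorm (𝔳 * 𝔪) : ℝ) = (Ideal.absNorm 𝔳 : ℝ) * Ideal.absNorm 𝔪 := by
    rw [map_mul]
    push_cast
    rfl
  have h1 := hL (S.image g) (fun _ => C₁ * (2 * (r * A)))
    ((Ideal.absNorm 𝔳 : ℝ) * Ideal.absNorm 𝔪) (mul_pos hVr hNr) (fun _ => hD) (by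
    intro t ht t' ht' htt
    obtain ⟨v, hv1, rfl⟩ := Finset.mem_image.mp ht
    obtain ⟨v', hv1', rfl⟩ := Finset.mem_image.mp ht'
    rw [hS, Finset.mem_filter] at hv1 hv1'
    have h2 : g v - g v' = ((el ω (v - v') : 𝓞 K) : K) := by
      rw [Pool.Agent.H11.RK.el_sub, hg]
      push_cast
      rfl
    rw [h2, ← hprod]
    refine ⟨hC₁b (v - v') (2 * (r * A)) fun l => ?_, hN1 (𝔳 * 𝔪) _ ?_ ?_⟩
    · have h3 := abs_le.1 (hv1.2.1.2 l)
      have h4 := abs_le.1 (hv1'.2.1.2 l)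
      rw [Pi.sub_apply, Int.cast_sub, abs_le]
      constructor <;> linarith [h3.1, h3.2, h4.1, h4.2]
    · rw [Ideal.mul_eq_inf_of_coprime hvm, Pool.Agent.H11.RK.el_sub]
      refine ⟨?_, ?_⟩
      · have h3 := Ideal.sub_mem 𝔳 hv1.2.1.1 hv1'.2.1.1
        rwa [sub_sub_sub_cancel_right] at h3
      · show el ω v - el ω v' ∈ 𝔪
        rw [← Ideal.Quotient.eq, hv1.2.2, hv1'.2.2]
    · rw [Pool.Agent.H11.RK.el_sub]
      intro h3
      exact htt (congrArg (fun a : 𝓞 K => (a : K)) (sub_eq_zero.mp h3)))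
  rw [hcard, hN2] at h1
  have hdg : dg K = Fintype.card ι := hd.symm
  rw [hdg] at h1
  set d := Fintype.card ι with hdd
  have h2 : (Ideal.absNorm 𝔪 : ℝ) ≤ (r * A) ^ d / Ideal.absNorm 𝔳 := by
    rw [le_div_iff₀ hVr, mul_comm]
    exact hNA
  calc (S.card : ℝ) * Ideal.absNorm 𝔪
      ≤ C₂ * (1 + (C₁ * (2 * (r * A))) ^ d / (Ideal.absNorm 𝔳 * Ideal.absNorm 𝔪)) *
          Ideal.absNorm 𝔪 := mul_le_mul_of_nonneg_right h1 hNr.le
    _ = C₂ * (Ideal.absNorm 𝔪 + (2 * C₁) ^ d * ((r * A) ^ d / Ideal.absNorm 𝔳)) := by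
        have h3 : (C₁ * (2 * (r * A))) ^ d = (2 * C₁) ^ d * (r * A) ^ d := by
          rw [← mul_pow]
          ring
        rw [h3]
        field_simp
    _ ≤ C₂ * ((r * A) ^ d / Ideal.absNorm 𝔳 +
          (2 * C₁) ^ d * ((r * A) ^ d / Ideal.absNorm 𝔳)) :=
        mul_le_mul_of_nonneg_left (add_le_add_left h2 _) (by linarith)
    _ = _ := by ring

open Classical in
theorem pf_PS3 (K : Type) [Field K] [NumberField K] (hLAT : T_LAT K) (hNRM : T_NRM K)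
    (hCMP : T_CMP K) : T_PS3 K := by
  intro ι _ _ ω s
  obtain ⟨hd, -⟩ := hCMP ι ω
  have hd1 : 1 ≤ Fintype.card ι := by
    rw [hd]
    exact Module.finrank_pos
  obtain ⟨C, hC, h1⟩ := ps3_one K hLAT hNRM hCMP ι ω
  refine ⟨C ^ (2 * md s), one_le_pow₀ hC, ?_⟩
  intro 𝔳 𝔪 r hv hm hr hr2 hvm
  have hVN : (0 : ℝ) < Ideal.absNorm 𝔳 := by
    have h2 : 0 < Ideal.absNorm 𝔳 := Nat.pos_of_ne_zero (by
      rw [Ne, Ideal.absNorm_eq_zero_iff]
      exact hv)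
    exact_mod_cast h2
  refine ⟨⌈((Ideal.absNorm 𝔳 : ℝ) * Ideal.absNorm 𝔪 + 1) / r⌉₊, ?_⟩
  intro A hA E
  have hrA : (Ideal.absNorm 𝔳 : ℝ) * Ideal.absNorm 𝔪 + 1 ≤ r * A := by
    have h2 : ((Ideal.absNorm 𝔳 : ℝ) * Ideal.absNorm 𝔪 + 1) / r ≤ A :=
      (Nat.le_ceil _).trans (by exact_mod_cast hA)
    rw [div_le_iff₀ hr] at h2
    linarith
  have hpr : (0 : ℝ) ≤ (Ideal.absNorm 𝔳 : ℝ) * Ideal.absNorm 𝔪 := by positivity
  have hrA0 : 0 < r * A := by linarith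
  have hrA1 : (Ideal.absNorm 𝔳 : ℝ) * Ideal.absNorm 𝔪 ≤ (r * A) ^ Fintype.card ι := by
    have h2 : r * A ≤ (r * A) ^ Fintype.card ι := le_self_pow₀ (by linarith) (by omega)
    linarith
  have hfin : Finite (𝓞 K ⧸ 𝔪) := Ideal.finiteQuotientOfFreeOfNeBot 𝔪 hm
  have hE : E.Finite := Set.toFinite E
  have hfi : Fintype (𝓞 K ⧸ 𝔪) := Fintype.ofFinite _
  have h0 : (0 : ℝ) ≤ C := by linarith
  have hq0 : (0 : ℝ) ≤ (r * A) ^ Fintype.card ι / Ideal.absNorm 𝔳 := by positivity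
  have h2 : ∀ F : Fin 2 → Mon s → 𝓞 K ⧸ 𝔪,
      (((sp ω s 𝔳 A r).filter fun c => cq 𝔪 (ec ω c) = F).card : ℝ) *
        (Ideal.absNorm 𝔪 : ℝ) ^ (2 * md s) ≤
      C ^ (2 * md s) * ((r * A) ^ Fintype.card ι / Ideal.absNorm 𝔳) ^ (2 * md s) := by
    intro F
    obtain ⟨B, hB⟩ : ∃ B : Fin 2 → Mon s → Finset (ι → ℤ), B = fun i p =>
        (bo ι A).filter fun v => (el ω v - (cs s i p : 𝓞 K) ∈ 𝔳 ∧
          ∀ l, |(v l : ℝ) - A / (2 * e1 ω) * ((cs s i p * ω.repr 1 l : ℤ) : ℝ)| ≤ r * A) ∧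
          Ideal.Quotient.mk 𝔪 (el ω v) = F i p := ⟨_, rfl⟩
    have hB1 : ∀ i p, ((B i p).card : ℝ) * (Ideal.absNorm 𝔪 : ℝ) ≤
        C * ((r * A) ^ Fintype.card ι / Ideal.absNorm 𝔳) := by
      intro i p
      rw [hB]
      exact h1 A 𝔳 𝔪 r (fun l => A / (2 * e1 ω) * ((cs s i p * ω.repr 1 l : ℤ) : ℝ))
        (cs s i p : 𝓞 K) (F i p) hv hm hvm hrA0 hrA1
    have h3 : ((sp ω s 𝔳 A r).filter fun c => cq 𝔪 (ec ω c) = F) ⊆
        Fintype.piFinset fun i => Fintype.piFinset fun p => B i p := by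
      intro c hc
      obtain ⟨h4, h5⟩ := Finset.mem_filter.1 hc
      obtain ⟨h6, h7⟩ := Finset.mem_filter.1 h4
      rw [Fintype.mem_piFinset]
      intro i
      rw [Fintype.mem_piFinset]
      intro p
      rw [hB]
      refine Finset.mem_filter.2 ⟨?_, h7 i p, ?_⟩
      · exact Fintype.mem_piFinset.1 (Fintype.mem_piFinset.1 h6 i) p
      · exact congrFun (congrFun h5 i) p
    have h4 : (((sp ω s 𝔳 A r).filter fun c => cq 𝔪 (ec ω c) = F).card : ℝ) ≤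
        ∏ i : Fin 2, ∏ p : Mon s, ((B i p).card : ℝ) := by
      have h5 := Finset.card_le_card h3
      rw [Fintype.card_piFinset] at h5
      simp only [Fintype.card_piFinset] at h5
      exact_mod_cast h5
    refine (mul_le_mul_of_nonneg_right h4 (by positivity)).trans ?_
    obtain ⟨X, hX⟩ : ∃ X : ℝ, X = (r * A) ^ Fintype.card ι / Ideal.absNorm 𝔳 := ⟨_, rfl⟩
    rw [← hX] at hB1 ⊢
    obtain ⟨N, hN⟩ : ∃ N : ℝ, N = (Ideal.absNorm 𝔪 : ℝ) := ⟨_, rfl⟩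
    have hN0 : 0 ≤ N := by
      rw [hN]
      exact Nat.cast_nonneg _
    rw [← hN] at hB1 ⊢
    have h5 : N ^ (2 * md s) = ∏ _i : Fin 2, ∏ _p : Mon s, N := by
      simp only [Finset.prod_const, Finset.card_univ, Fintype.card_fin]
      rw [← pow_mul, mul_comm]
    have h6 : C ^ (2 * md s) * X ^ (2 * md s) = ∏ _i : Fin 2, ∏ _p : Mon s, (C * X) := by
      simp only [Finset.prod_const, Finset.card_univ, Fintype.card_fin]
      rw [← pow_mul, mul_comm (Fintype.card (Mon s)) 2, mul_pow]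
    rw [h5, h6, ← Finset.prod_mul_distrib]
    refine Finset.prod_le_prod (fun i _ => ?_) fun i _ => ?_
    · exact mul_nonneg (Finset.prod_nonneg fun p _ => Nat.cast_nonneg _)
        (Finset.prod_nonneg fun p _ => hN0)
    · rw [← Finset.prod_mul_distrib]
      exact Finset.prod_le_prod (fun p _ => mul_nonneg (Nat.cast_nonneg _) hN0)
        fun p _ => hB1 i p
  have h6 : ((sp ω s 𝔳 A r).filter fun c => cq 𝔪 (ec ω c) ∈ E).card =
      ∑ F ∈ hE.toFinset, ((sp ω s 𝔳 A r).filter fun c => cq 𝔪 (ec ω c) = F).card := by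
    rw [Finset.card_eq_sum_card_fiberwise (f := fun c => cq 𝔪 (ec ω c)) (t := hE.toFinset)]
    · refine Finset.sum_congr rfl fun F hF => ?_
      rw [Finset.filter_filter]
      congr 1
      ext c
      simp only [Finset.mem_filter]
      constructor
      · rintro ⟨h7, -, h8⟩
        exact ⟨h7, h8⟩
      · rintro ⟨h7, h8⟩
        refine ⟨h7, ?_, h8⟩
        rw [h8]
        exact hE.mem_toFinset.mp hF
    · intro c hc
      have h7 := (Finset.mem_filter.mp hc).2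
      exact hE.mem_toFinset.mpr h7
  have h8 : Nat.card E = hE.toFinset.card := Nat.card_eq_card_finite_toFinset hE
  rw [h6, h8]
  push_cast
  rw [Finset.sum_mul]
  calc ∑ F ∈ hE.toFinset, (((sp ω s 𝔳 A r).filter fun c => cq 𝔪 (ec ω c) = F).card : ℝ) *
        (Ideal.absNorm 𝔪 : ℝ) ^ (2 * md s)
      ≤ ∑ F ∈ hE.toFinset, C ^ (2 * md s) *
          ((r * A) ^ Fintype.card ι / Ideal.absNorm 𝔳) ^ (2 * md s) :=
        Finset.sum_le_sum fun F _ => h2 F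
    _ = _ := by
        rw [Finset.sum_const, nsmul_eq_mul]
        ring

end Pool.Agent.H38.RK
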