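import Pool.Agent.H70.RK.T1

/-!
# (WCS) the canonical tree is computable
-/

set_option autoImplicit false

namespace Pool.Agent.H38.RK

open Pool.Agent.H70.RK
open Pool.Agent.H70.RC (Term DNF pv fv psat)

section aw

variable {W S : Type} [DecidableEq S]

/-- the path through `askT` -/
def aw (st : W → Option S) : Term W → List (S × Bool) → List Bool →
    Term W × Option (List (S × Bool) × List Bool)
  | [], κ, π => ([], some (κ, π))
  | p :: T, κ, π =>
    match st p.1 with
    | none => aw st T κ π
    | some s =>
      match κ.lookup s with
      | some _ => aw st T κ π
      | none =>
        match π with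
        | [] => ([], none)
        | b :: π =>
          ((p.1, b) :: (aw st T ((s, b) :: κ) π).1, (aw st T ((s, b) :: κ) π).2)

/-- combine -/
def glue (x : Term W × Option (List (S × Bool) × List Bool))
    (F : List (S × Bool) → TR W) : Term W × Option (Option Bool) :=
  match x.2 with
  | some y => (x.1 ++ ((F y.1).walk y.2).1, ((F y.1).walk y.2).2)
  | none => (x.1, none)

theorem askT_walk (st : W → Option S) (F : List (S × Bool) → TR W) :
    ∀ (T : Term W) (κ : List (S × Bool)) (π : List Bool),
      (askT st T κ F).walk π = glue (aw st T κ π) F := by
  intro T
  induction T with
  | nil => intro κ π; simp [askT, aw, glue]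
  | cons p T ih =>
    intro κ π
    cases hs : st p.1 with
    | none => simp only [askT, aw, hs]; exact ih κ π
    | some s =>
      cases hl : κ.lookup s with
      | some b => simp only [askT, aw, hs, hl]; exact ih κ π
      | none =>
        cases π with
        | nil => simp only [askT, aw, hs, hl]; simp [TR.walk, glue]
        | cons b π =>
          simp only [askT, aw, hs, hl, TR.walk]
          cases b with
          | true =>
            simp only [if_true]
            rw [ih]
            unfold glue
            cases (aw st T ((s, true) :: κ) π).2 <;> simp
          | false =>
            simp only [Bool.false_eq_true, if_false]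
            rw [ih]
            unfold glue
            cases (aw st T ((s, false) :: κ) π).2 <;> simp

end aw

theorem walk_len {W : Type} : ∀ (T : TR W) (π : List Bool), (T.walk π).1.length ≤ π.length := by
  intro T
  induction T with
  | leaf o => intro π; cases π <;> simp [TR.walk]
  | node w l r ihl ihr =>
    intro π
    cases π with
    | nil => simp [TR.walk]
    | cons b π =>
      simp only [TR.walk]
      cases b with
      | true => simpa using ihr π
      | false => simpa using ihl π

theorem tm_len {W : Type} (T : TR W) (π : List Bool) (t : Term W) (h : tm (T.walk π) = some t) :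
    t.length ≤ π.length := by
  unfold tm at h
  have h1 := walk_len T π
  split at h
  · rw [← Option.some.inj h]; exact h1
  · exact absurd h (by simp)

section adp

variable {V : Type}

theorem qvar (t : ℕ) (ht : 1 ≤ t) (v : V) : ∀ j, Qst V t j (fun X => X v) := by
  intro j
  induction j with
  | zero => exact ⟨v, fun X => rfl⟩
  | succ j ih =>
    refine ⟨[fun X => X v], by simpa using Nat.one_le_two_pow, ?_, ?_⟩
    · intro g hg
      rw [List.mem_singleton] at hg
      subst hg
      obtain ⟨t', rfl⟩ : ∃ t', t = t' + 1 := ⟨t - 1, by omega⟩
      exact Adp.ask t' (fun X => X v) _ (fun _ => false) (fun _ => true) ih (Adp.pure _ _)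
        (Adp.pure _ _) (fun X h => h) (fun X h => h)
    · intro X; simp

theorem psat_adp {W S : Type} [DecidableEq S] (hADM : T_ADM) (t j : ℕ) (ht : 1 ≤ t)
    (st : W → Option S) (bv : (V → Bool) → W → Bool) (hbv : Lt bv) (κ : List (S × Bool)) :
    ∀ T : Term W, Adp (Qst V t j) T.length (fun X =>
      @decide (psat (pv st (bv X) κ) T) (Classical.propDecidable _)) := by
  classical
  intro T
  induction T with
  | nil =>
    have : (fun X : V → Bool => @decide (psat (pv st (bv X) κ) ([] : Term W))
        (Classical.propDecidable _)) = fun _ => true := by
      funext X; simp [psat]
    rw [this]; exact Adp.pure _ _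
  | cons p T ih =>
    have hc : ∀ X, psat (pv st (bv X) κ) (p :: T) ↔
        (pv st (bv X) κ p.1 = none ∨ pv st (bv X) κ p.1 = some p.2) ∧
          psat (pv st (bv X) κ) T := by
      intro X; simp [psat]
    have hconst : ∀ P : Prop, (∀ X, (pv st (bv X) κ p.1 = none ∨ pv st (bv X) κ p.1 = some p.2) ↔ P) →
        Adp (Qst V t j) (p :: T).length (fun X =>
          @decide (psat (pv st (bv X) κ) (p :: T)) (Classical.propDecidable _)) := by
      intro P hP
      by_cases hPt : P
      · have : (fun X : V → Bool => @decide (psat (pv st (bv X) κ) (p :: T))
            (Classical.propDecidable _)) = fun X => @decide (psat (pv st (bv X) κ) T)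
            (Classical.propDecidable _) := by
          funext X
          have := hc X
          simp only [hP X, hPt, true_and] at this
          simp only [this]
        rw [this]
        exact hADM V Bool t t j j _ _ _ le_rfl le_rfl (by simp) ht ih
      · have : (fun X : V → Bool => @decide (psat (pv st (bv X) κ) (p :: T))
            (Classical.propDecidable _)) = fun _ => false := by
          funext X
          have := hc X
          simp only [hP X, hPt, false_and] at this
          simp only [this, decide_false]
        rw [this]; exact Adp.pure _ _
    cases hs : st p.1 with
    | some s =>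
      refine hconst (κ.lookup s = none ∨ κ.lookup s = some p.2) fun X => ?_
      simp only [pv, hs]
    | none =>
      have hv : ∀ X, pv st (bv X) κ p.1 = some (bv X p.1) := by
        intro X; simp only [pv, hs]
      rcases hbv p.1 with ⟨b, hb⟩ | ⟨v, hb⟩
      · refine hconst (b = p.2) fun X => ?_
        rw [hv, hb X]; simp
      · have hval : ∀ X, psat (pv st (bv X) κ) (p :: T) ↔ X v = p.2 ∧
            psat (pv st (bv X) κ) T := by
          intro X
          rw [hc X, hv X, hb X]; simp
        refine Adp.ask T.length (fun X => X v) _
          (fun X => if p.2 then false else @decide (psat (pv st (bv X) κ) T)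
            (Classical.propDecidable _))
          (fun X => if p.2 then @decide (psat (pv st (bv X) κ) T)
            (Classical.propDecidable _) else false) (qvar t ht v j) ?_ ?_ ?_ ?_
        · by_cases hp : p.2
          · simp only [hp, if_true]; exact Adp.pure _ _
          · simp only [hp, if_false]; exact ih
        · by_cases hp : p.2
          · simp only [hp, if_true]; exact ih
          · simp only [hp, if_false]; exact Adp.pure _ _
        · intro X hX
          have h1 := hval X
          rw [hX] at h1
          by_cases hp : p.2
          · simp only [hp, true_and] at h1
            simp only [hp, if_true, h1]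
          · simp only [Bool.not_eq_true] at hp
            simp only [hp, Bool.true_eq_false, false_and] at h1
            simp only [h1, hp, decide_false]
            rfl
        · intro X hX
          have h1 := hval X
          rw [hX] at h1
          by_cases hp : p.2
          · simp only [hp, Bool.false_eq_true, false_and] at h1
            simp only [hp, if_true, h1, decide_false]
          · simp only [Bool.not_eq_true] at hp
            simp only [hp, true_and] at h1
            simp only [h1, hp]
            rfl

theorem adp_map (hADB : T_ADB) {α β : Type} (q : ((V → Bool) → Bool) → Prop) (c : ℕ)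
    (g : (V → Bool) → α) (f : α → β) (h : Adp q c g) : Adp q c (fun X => f (g X)) :=
  hADB V α β q c 0 g (fun a _ => f a) h fun a => Adp.pure 0 (f a)

end adp

theorem pf_WCS (hADM : T_ADM) (hADB : T_ADB) (hAFD : T_AFD) (hDNS : T_DNS) : T_WCS := by
  classical
  intro V W S _ t j c K D r st bv L hbv hL hτ hcD hKD
  have ht : 1 ≤ t := by omega
  set q := Qst V t (j + 1) with hq
  set P : List (((V → Bool) → TR W) × List Bool) :=
    L.flatMap fun τ => (bl D).map fun π => (τ, π) with hP
  have hbl : (bl D).length ≤ 2 ^ (D + 1) := ((hDNS W D []).1).le
  have hblm : ∀ π : List Bool, π ∈ bl D → π.length ≤ D := fun π h => ((hDNS W D []).2.1 π).1 h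
  have hPm : ∀ b ∈ P, b.1 ∈ L ∧ b.2 ∈ bl D := by
    intro b hb
    rw [hP, List.mem_flatMap] at hb
    obtain ⟨τ, h1, h2⟩ := hb
    rw [List.mem_map] at h2
    obtain ⟨π, h3, rfl⟩ := h2
    exact ⟨h1, h3⟩
  have hPl : P.length ≤ 2 ^ (K + D + 1) := by
    have h1 : P.length = L.length * (bl D).length := by
      rw [hP, List.length_flatMap]
      simp
    rw [h1, show K + D + 1 = K + (D + 1) by omega, pow_add]
    exact Nat.mul_le_mul hL hbl
  -- the list of the terms
  have hdn : ∀ y : V → Bool, dn D (L.map fun τ => τ y) =
      P.filterMap fun b => tm ((b.1 y).walk b.2) := by
    intro y
    unfold dn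
    rw [hP, List.filterMap_flatMap, List.flatMap_map]
    congr 1
    funext τ
    rw [List.filterMap_map]
    rfl
  have hfind : ∀ (y : V → Bool) (κ : List (S × Bool)),
      (dn D (L.map fun τ => τ y)).find? (fun T => decide (psat (pv st (bv y) κ) T)) =
      (P.find? fun b => (tm ((b.1 y).walk b.2)).any fun T =>
        decide (psat (pv st (bv y) κ) T)).bind fun b => tm ((b.1 y).walk b.2) := by
    intro y κ
    rw [hdn y, List.find?_filterMap]
  have hpp : ∀ κ : List (S × Bool), ∀ b ∈ P, Adp (Qst V t j) t fun y : V → Bool =>
      (tm ((b.1 y).walk b.2)).any fun T => decide (psat (pv st (bv y) κ) T) := by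
    intro κ b hb
    obtain ⟨h1, h2⟩ := hPm b hb
    have h3 := hADB V _ Bool (Qst V t j) c D (fun X => (b.1 X).walk b.2)
      (fun x X => (tm x).any fun T => if T.length ≤ D then decide (psat (pv st (bv X) κ) T) else false)
      (hτ b.1 h1 b.2) ?_
    · have e : (fun y : V → Bool => (tm ((b.1 y).walk b.2)).any fun T =>
          decide (psat (pv st (bv y) κ) T)) = fun X => (tm ((b.1 X).walk b.2)).any fun T =>
          if T.length ≤ D then decide (psat (pv st (bv X) κ) T) else false := by
        funext X
        cases hx : tm ((b.1 X).walk b.2) with
        | none => rfl
        | some T =>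
          have := (tm_len _ _ _ hx).trans (hblm _ h2)
          simp only [Option.any_some, if_pos this]
      rw [e]
      exact hADM V Bool t t j j _ _ _ le_rfl le_rfl hcD ht h3
    · intro x
      cases hx : tm x with
      | none => simp only [Option.any_none]; exact Adp.pure _ _
      | some T =>
        simp only [Option.any_some]
        by_cases hl : T.length ≤ D
        · simp only [if_pos hl]
          exact hADM V Bool t t j j _ _ _ le_rfl le_rfl hl ht (psat_adp hADM t j ht st bv hbv κ T)
        · simp only [if_neg hl]; exact Adp.pure _ _
  have main : ∀ (r : ℕ) (κ : List (S × Bool)) (π : List Bool),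
      Adp q (r * (K + 2 * D + 2 + c)) fun y : V → Bool =>
        (can st (bv y) (dn D (L.map fun τ => τ y)) r κ).walk π := by
    intro r
    induction r with
    | zero =>
      intro κ π
      simp only [can]
      exact Adp.pure _ _
    | succ r ih =>
      intro κ π
      set h2 : Term W × Option (Option Bool) → (V → Bool) → Term W × Option (Option Bool) :=
        fun x X => match tm x with
          | none => ([], none)
          | some T => if T.length ≤ D then (askT st T κ fun κ' =>
              if psat (pv st (bv X) κ') T then .leaf (some true) else
                can st (bv X) (dn D (L.map fun τ => τ X)) r κ').walk π else ([], none) with hh2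
      set h1 : Option (((V → Bool) → TR W) × List Bool) → (V → Bool) →
          Term W × Option (Option Bool) := fun o X => match o with
          | none => (TR.leaf (some false)).walk π
          | some b => if b ∈ P then h2 ((b.1 X).walk b.2) X else ([], none) with hh1
      have e : (fun y : V → Bool => (can st (bv y) (dn D (L.map fun τ => τ y)) (r + 1) κ).walk π) =
          fun y => h1 (P.find? fun b => (tm ((b.1 y).walk b.2)).any fun T =>
            decide (psat (pv st (bv y) κ) T)) y := by
        funext y
        simp only [can]
        rw [hfind y κ]
        cases ho : P.find? fun b => (tm ((b.1 y).walk b.2)).any fun T =>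
            decide (psat (pv st (bv y) κ) T) with
        | none => simp [hh1]
        | some b =>
          have hb : b ∈ P := List.mem_of_find?_eq_some ho
          have hb2 : ((tm ((b.1 y).walk b.2)).any fun T =>
            decide (psat (pv st (bv y) κ) T)) = true :=
            List.find?_some (p := fun b : ((V → Bool) → TR W) × List Bool =>
              (tm ((b.1 y).walk b.2)).any fun T => decide (psat (pv st (bv y) κ) T)) ho
          simp only [Option.bind_some, hh1, if_pos hb, hh2]
          cases hx : tm ((b.1 y).walk b.2) with
          | none => rw [hx] at hb2; simp at hb2
          | some T =>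
            have := (tm_len _ _ _ hx).trans (hblm _ (hPm b hb).2)
            simp only [if_pos this]
      rw [e]
      have e2 : (r + 1) * (K + 2 * D + 2 + c) =
          (K + D + 1 + 1) + (c + (D + r * (K + 2 * D + 2 + c))) := by ring
      rw [e2]
      refine hADB V _ _ q _ _ _ h1 (hAFD V _ t j (K + D + 1) P _ hPl hKD (hpp κ)) ?_
      intro o
      cases o with
      | none => simp only [hh1]; exact Adp.pure _ _
      | some b =>
        by_cases hb : b ∈ P
        · simp only [hh1, if_pos hb]
          refine hADB V _ _ q _ _ _ h2 (hADM V _ t t j (j + 1) c c _ le_rfl (Nat.le_succ j) le_rfl ht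
            (hτ b.1 (hPm b hb).1 b.2)) ?_
          intro x
          cases hx : tm x with
          | none => simp only [hh2, hx]; exact Adp.pure _ _
          | some T =>
            by_cases hl : T.length ≤ D
            · simp only [hh2, hx, if_pos hl, askT_walk]
              cases ha : (aw st T κ π).2 with
              | none => simp only [glue, ha]; exact Adp.pure _ _
              | some z =>
                simp only [glue, ha]
                refine adp_map hADB q _ (fun X => ((if psat (pv st (bv X) z.1) T then
                  (TR.leaf (some true) : TR W) else can st (bv X) (dn D (L.map fun τ => τ X)) r z.1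
                    ).walk z.2)) (fun u => ((aw st T κ π).1 ++ u.1, u.2)) ?_
                have h5 := hADB V Bool (Term W × Option (Option Bool)) q T.length
                  (r * (K + 2 * D + 2 + c)) (fun X =>
                    @decide (psat (pv st (bv X) z.1) T) (Classical.propDecidable _))
                  (fun d X => if d then (TR.leaf (some true) : TR W).walk z.2 else
                    (can st (bv X) (dn D (L.map fun τ => τ X)) r z.1).walk z.2)
                  (psat_adp hADM t (j + 1) ht st bv hbv z.1 T) ?_
                · have e3 : (fun X : V → Bool => ((if psat (pv st (bv X) z.1) T then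
                      (TR.leaf (some true) : TR W) else can st (bv X)
                        (dn D (L.map fun τ => τ X)) r z.1).walk z.2)) = fun X =>
                      if (@decide (psat (pv st (bv X) z.1) T) (Classical.propDecidable _)) = true
                      then (TR.leaf (some true) : TR W).walk z.2 else
                      (can st (bv X) (dn D (L.map fun τ => τ X)) r z.1).walk z.2 := by
                    funext X
                    by_cases h6 : psat (pv st (bv X) z.1) T
                    · simp [h6]
                    · simp [h6]
                  rw [e3]
                  exact hADM V _ t t (j + 1) (j + 1) _ _ _ le_rfl le_rfl (by omega) ht h5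
                · intro d
                  cases d with
                  | true => simp only [if_true]; exact Adp.pure _ _
                  | false => simp only [Bool.false_eq_true, if_false]; exact ih z.1 z.2
            · simp only [hh2, hx, if_neg hl]; exact Adp.pure _ _
        · simp only [hh1, if_neg hb]; exact Adp.pure _ _
  exact fun π => main r [] π

end Pool.Agent.H38.RK
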